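import Pool.Agent.AHX.Main
import Pool.Agent.AHA.Main

set_option autoImplicit false

/-!
# MP_ea777b_al: one large label is enough

Let `M` be a Coxeter matrix of rank at least `3` with connected Coxeter graph and with one label
`M i j ≥ 42` or infinite (`M i j = 0`), the other labels being arbitrary.  Then the Artin group of `M` is
acylindrically hyperbolic: it is not virtually cyclic and acts isometrically and acylindrically, with an
unbounded orbit, on a geodesic metric space which is hyperbolic in the sense of Gromov.

The group is the quotient of the Artin group `Γ` with the large label replaced by infinity.  `Γ` is an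
amalgam and acts on its Bass-Serre tree; the relators rotate around a family of subtrees with small
overlaps (small cancellation over the tree), so the quotient of the electrified tree is hyperbolic, and a
loxodromic element with the property WPD is found there (`Pool/Agent/AHX`).  The acylindrical action is
then constructed in `Pool/Agent/AHA`: the quasi-lines of the conjugates of the elementary closure are
coned off, the number of those of them which separate two points gives a new hyperbolic metric on which
the action is acylindrical, and the injective hull makes the space geodesic.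
-/

namespace Pool.Agent.Results.MP_ea777b_al.AcylindricalAction

theorem result (B : Type) [Fintype B] (M : CoxeterMatrix B)
    (hconn : (SimpleGraph.fromRel (fun i j : B => M.M i j ≠ 2)).Connected)
    (hcard : 3 ≤ Fintype.card B)
    (hlarge : ∃ i j : B, i ≠ j ∧ (M.M i j = 0 ∨ 42 ≤ M.M i j))
    (G : Type) [Group G]
    (e : G ≃* PresentedGroup {r : FreeGroup B | ∃ i j : B, M.M i j ≠ 0 ∧
        r = ((List.range (M.M i j)).map
              (fun k => if Even k then FreeGroup.of i else FreeGroup.of j)).prod *
            (((List.range (M.M i j)).map
              (fun k => if Even k then FreeGroup.of j else FreeGroup.of i)).prod)⁻¹}) :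
    (¬ ∃ H : Subgroup G, IsCyclic H ∧ H.FiniteIndex) ∧
    ∃ (X : Type) (_ : MetricSpace X) (_ : MulAction G X),
      (∀ (g : G) (x y : X), dist (g • x) (g • y) = dist x y) ∧
      (∀ x y : X, ∃ γ : ℝ → X, γ 0 = x ∧ γ (dist x y) = y ∧
        ∀ s ∈ Set.Icc (0 : ℝ) (dist x y), ∀ t ∈ Set.Icc (0 : ℝ) (dist x y),
          dist (γ s) (γ t) = |s - t|) ∧
      (∃ δ : ℝ, ∀ x y z w : X,
        dist x y + dist z w ≤ max (dist x z + dist y w) (dist x w + dist y z) + 2 * δ) ∧
      (∀ ε : ℝ, 0 < ε → ∃ (R : ℝ) (N : ℕ), ∀ x y : X, R ≤ dist x y →
        ({g : G | dist x (g • x) ≤ ε ∧ dist y (g • y) ≤ ε} : Set G).Finite ∧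
        ({g : G | dist x (g • x) ≤ ε ∧ dist y (g • y) ≤ ε} : Set G).ncard ≤ N) ∧
      (∃ x : X, ¬ Bornology.IsBounded (MulAction.orbit G x)) :=
  AHA.acyl_of_wpd G (AHX.main B M hconn hcard hlarge G e)

end Pool.Agent.Results.MP_ea777b_al.AcylindricalAction
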